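import Mathlib
import Pool.Agent.Lib.MP_3d3eb4_co.Defs

namespace Pool.Agent.FS.H31P
open Finset Function Sum

/-- latin square on a type -/
def Lat {X : Type} (L : X → X → X) : Prop :=
  (∀ r, Injective fun c => L r c) ∧ (∀ c, Injective fun r => L r c)

lemma sum_of_count {α X A : Type} [Fintype X] [DecidableEq X] [AddCommMonoid A] (Q : Finset α)
    (g : α → X) (h : ℕ) (hc : ∀ x, (Q.filter fun p => g p = x).card = h) (F : X → A) :
    ∑ p ∈ Q, F (g p) = h • ∑ x, F x := by
  rw [← Finset.sum_fiberwise_of_maps_to (s := Q) (t := univ) (g := g) (fun _ _ => mem_univ _),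
    Finset.smul_sum]
  refine Finset.sum_congr rfl fun x _ => ?_
  rw [Finset.sum_congr rfl (g := fun _ => F x), Finset.sum_const, hc]
  intro p hp
  rw [(mem_filter.1 hp).2]

lemma count_of_sum {α X : Type} [Fintype X] [DecidableEq X] (Q : Finset α)
    (g : α → X) (k : ℕ) (hs : ∀ f : X → ℤ, ∑ p ∈ Q, f (g p) = k * ∑ x, f x) (x : X) :
    (Q.filter fun p => g p = x).card = k := by
  have := hs fun y => if y = x then 1 else 0
  rw [Finset.sum_ite_eq', Finset.sum_boole] at this
  simp only [mem_univ, if_true, mul_one] at this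
  exact_mod_cast this

open Pool.Agent.Lib.MP_3d3eb4_co in
/-- transfer to `Fin n`, with the label criterion for indivisibility -/
theorem transfer {X : Type} [Fintype X] [DecidableEq X] {n k N : ℕ} (hn : Fintype.card X = n)
    (L : X → X → X) (hL : Lat L) (P : Finset (X × X))
    (h1 : ∀ f : X → ℤ, ∑ p ∈ P, f p.1 = k * ∑ x, f x)
    (h2 : ∀ f : X → ℤ, ∑ p ∈ P, f p.2 = k * ∑ x, f x)
    (h3 : ∀ f : X → ℤ, ∑ p ∈ P, f (L p.1 p.2) = k * ∑ x, f x)
    (a b : X → ZMod N) (q : X × X) (hkN : k < N) (hN : Odd N)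
    (htot : ∑ x, a x + ∑ x, a x - ∑ x, b x = 2)
    (h0 : ∀ p ∈ P, p ≠ q → a p.1 + a p.2 - b (L p.1 p.2) = 0)
    (hq : a q.1 + a q.2 - b (L q.1 q.2) = 2 * k) :
    ∃ L' : Fin n → Fin n → Fin n, IsLatinSquare L' ∧
      ∃ P' : Finset (Fin n × Fin n), IsIndivisiblePlex L' k P' := by
  classical
  let e : X ≃ Fin n := Fintype.equivFinOfCardEq hn
  let ee : X × X ≃ Fin n × Fin n := e.prodCongr e
  refine ⟨fun r c => e (L (e.symm r) (e.symm c)), ⟨fun r => ?_, fun c => ?_⟩,
    P.map ee.toEmbedding, ⟨?_, ?_, ?_, ?_⟩, ?_⟩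
  · exact Finite.injective_iff_bijective.1 fun c c' h =>
      e.symm.injective (hL.1 _ (e.injective h))
  · exact Finite.injective_iff_bijective.1 fun c c' h =>
      e.symm.injective (hL.2 _ (e.injective h))
  · have := h1 fun _ => 1
    simp only [Finset.sum_const, card_univ, hn, nsmul_eq_mul, mul_one] at this
    rw [card_map, mul_comm]; exact_mod_cast this
  · refine count_of_sum _ (fun p : Fin n × Fin n => p.1) k fun f => ?_
    rw [Finset.sum_map, ← e.sum_comp f]
    exact h1 fun x => f (e x)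
  · refine count_of_sum _ (fun p : Fin n × Fin n => p.2) k fun f => ?_
    rw [Finset.sum_map, ← e.sum_comp f]
    exact h2 fun x => f (e x)
  · refine count_of_sum _ (fun p : Fin n × Fin n => e (L (e.symm p.1) (e.symm p.2))) k
      fun f => ?_
    rw [Finset.sum_map, ← e.sum_comp f, ← h3 fun x => f (e x)]
    refine Finset.sum_congr rfl fun p _ => ?_
    simp [ee]
  · rintro h hpos hlt Q hQ ⟨-, c1, c2, c3⟩
    have s1 := sum_of_count Q (fun p => p.1) h c1 fun x => a (e.symm x)
    have s2 := sum_of_count Q (fun p => p.2) h c2 fun x => a (e.symm x)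
    have s3 := sum_of_count Q (fun p => e (L (e.symm p.1) (e.symm p.2))) h c3
      fun x => b (e.symm x)
    rw [e.symm.sum_comp a] at s1 s2
    rw [e.symm.sum_comp b] at s3
    simp only [Equiv.symm_apply_apply] at s3
    have hs : ∑ p ∈ Q, (a (e.symm p.1) + a (e.symm p.2) - b (L (e.symm p.1) (e.symm p.2)))
        = (h : ZMod N) * 2 := by
      rw [Finset.sum_sub_distrib, Finset.sum_add_distrib, s1, s2, s3, ← htot]
      simp only [nsmul_eq_mul]; ring
    have hz : ∀ p ∈ Q, p ≠ ee q →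
        a (e.symm p.1) + a (e.symm p.2) - b (L (e.symm p.1) (e.symm p.2)) = 0 := by
      intro p hp hne
      obtain ⟨p', hp', rfl⟩ := mem_map.1 (hQ hp)
      have := h0 p' hp' (by rintro rfl; exact hne rfl)
      simpa [ee] using this
    have hu : IsUnit (2 : ZMod N) := by
      have := (ZMod.isUnit_iff_coprime 2 N).2 (Nat.coprime_two_left.2 hN)
      simpa using this
    by_cases hm : ee q ∈ Q
    · rw [Finset.sum_eq_single_of_mem _ hm hz] at hs
      have h' : (h : ZMod N) = k := by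
        apply hu.mul_right_cancel
        rw [← hs, mul_comm, ← hq]; simp [ee]
      have := (ZMod.natCast_eq_natCast_iff' h k N).1 h'
      rw [Nat.mod_eq_of_lt (by omega), Nat.mod_eq_of_lt hkN] at this
      omega
    · rw [Finset.sum_eq_zero fun p hp => hz p hp (by rintro rfl; exact hm hp)] at hs
      have h' : (h : ZMod N) = (0 : ℕ) := by
        apply hu.mul_right_cancel
        rw [← hs]; simp
      have := (ZMod.natCast_eq_natCast_iff' h 0 N).1 h'
      rw [Nat.mod_eq_of_lt (by omega), Nat.zero_mod] at this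
      omega

lemma ext2 {ι α β : Type} [Fintype ι] [Fintype α] [Fintype β] (ψ : ι → α) (v : ι → β)
    (hψ : Injective ψ) (hv : Injective v) (hc : Fintype.card α ≤ Fintype.card β) :
    ∃ g : α → β, Injective g ∧ ∀ i, g (ψ i) = v i := by
  classical
  obtain ⟨j⟩ := Function.Embedding.nonempty_of_card_le hc
  obtain ⟨s, hs⟩ := Equiv.Perm.exists_extending_pair (f := fun i => j (ψ i)) (g := v)
    (j.injective.comp hψ) hv
  exact ⟨fun x => s (j x), s.injective.comp j.injective, hs⟩

/-- prolongation of `Z_M`, `M` odd -/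
theorem prolong {T : Type} {M : ℕ} (hu : IsUnit (2 : ZMod M)) (I : T → T → T) (hI : Lat I)
    (φ : T → ZMod M) (hφ : Injective φ) (π : T → T) (hπ : Bijective π) :
    ∃ L : ZMod M ⊕ T → ZMod M ⊕ T → ZMod M ⊕ T, Lat L ∧
      (∀ a b, (∀ s, φ s ≠ b - a) → L (inl a) (inl b) = inl (a + b)) ∧
      (∀ a b s, b - a = φ (π s) → L (inl a) (inl b) = inr s) ∧
      (∀ a y, L (inl a) (inr y) = inl (2 * a + φ y)) ∧
      (∀ x b, L (inr x) (inl b) = inl (2 * b - φ x)) ∧
      (∀ x y, L (inr x) (inr y) = inr (I x y)) := by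
  classical
  let L : ZMod M ⊕ T → ZMod M ⊕ T → ZMod M ⊕ T := fun r c =>
    Sum.elim (fun a => Sum.elim
        (fun b => if h : ∃ s, φ (π s) = b - a then inr h.choose else inl (a + b))
        (fun y => inl (2 * a + φ y)) c)
      (fun x => Sum.elim (fun b => inl (2 * b - φ x)) (fun y => inr (I x y)) c) r
  have e1 : ∀ a b, (∀ s, φ s ≠ b - a) → L (inl a) (inl b) = inl (a + b) := by
    intro a b h
    have : ¬ ∃ s, φ (π s) = b - a := by rintro ⟨s, hs⟩; exact h _ hs
    simp only [L, Sum.elim_inl, dif_neg this]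
  have e2 : ∀ a b s, b - a = φ (π s) → L (inl a) (inl b) = inr s := by
    intro a b s h
    have h' : ∃ s, φ (π s) = b - a := ⟨s, h.symm⟩
    simp only [L, Sum.elim_inl, dif_pos h']
    rw [hπ.1 (hφ (h'.choose_spec.trans h))]
  have e3 : ∀ a y, L (inl a) (inr y) = inl (2 * a + φ y) := fun _ _ => rfl
  have e4 : ∀ x b, L (inr x) (inl b) = inl (2 * b - φ x) := fun _ _ => rfl
  have e5 : ∀ x y, L (inr x) (inr y) = inr (I x y) := fun _ _ => rfl
  have di : ∀ a b, ((∀ s, φ s ≠ b - a) ∧ L (inl a) (inl b) = inl (a + b)) ∨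
      ∃ s, b - a = φ (π s) ∧ L (inl a) (inl b) = inr s := by
    intro a b
    by_cases h : ∀ s, φ s ≠ b - a
    · exact Or.inl ⟨h, e1 a b h⟩
    · push Not at h
      obtain ⟨s, hs⟩ := h
      obtain ⟨s, rfl⟩ := hπ.2 s
      exact Or.inr ⟨s, hs.symm, e2 a b s hs.symm⟩
  refine ⟨L, ⟨?_, ?_⟩, e1, e2, e3, e4, e5⟩
  · rintro (a | x) (b | y) (b' | y') h <;> simp only at h
    · rcases di a b with ⟨h1, h2⟩ | ⟨s, h1, h2⟩ <;> rcases di a b' with ⟨h3, h4⟩ | ⟨s', h3, h4⟩ <;>
        rw [h2, h4] at h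
      · rw [add_left_cancel (inl.inj h)]
      · cases h
      · cases h
      · cases h; rw [sub_left_injective (h1.trans h3.symm)]
    · rcases di a b with ⟨h1, h2⟩ | ⟨s, h1, h2⟩ <;> rw [h2, e3] at h
      · exact absurd (by linear_combination -(inl.inj h)) (h1 y')
      · cases h
    · rcases di a b' with ⟨h1, h2⟩ | ⟨s, h1, h2⟩ <;> rw [h2, e3] at h
      · exact absurd (by linear_combination (inl.inj h)) (h1 y)
      · cases h
    · rw [e3, e3] at h; rw [hφ (add_left_cancel (inl.inj h))]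
    · rw [e4, e4] at h
      rw [hu.mul_left_cancel (sub_left_injective (inl.inj h))]
    · rw [e4, e5] at h; cases h
    · rw [e4, e5] at h; cases h
    · rw [e5, e5] at h; rw [hI.1 x (inr.inj h)]
  · rintro (b | y) (a | x) (a' | x') h <;> simp only at h
    · rcases di a b with ⟨h1, h2⟩ | ⟨s, h1, h2⟩ <;> rcases di a' b with ⟨h3, h4⟩ | ⟨s', h3, h4⟩ <;>
        rw [h2, h4] at h
      · rw [add_right_cancel (inl.inj h)]
      · cases h
      · cases h
      · cases h; rw [sub_right_injective (h1.trans h3.symm)]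
    · rcases di a b with ⟨h1, h2⟩ | ⟨s, h1, h2⟩ <;> rw [h2, e4] at h
      · exact absurd (by linear_combination (inl.inj h)) (h1 x')
      · cases h
    · rcases di a' b with ⟨h1, h2⟩ | ⟨s, h1, h2⟩ <;> rw [h2, e4] at h
      · exact absurd (by linear_combination -(inl.inj h)) (h1 x)
      · cases h
    · rw [e4, e4] at h; rw [hφ (sub_right_injective (inl.inj h))]
    · rw [e3, e3] at h
      rw [hu.mul_left_cancel (add_right_cancel (inl.inj h))]
    · rw [e3, e5] at h; cases h
    · rw [e3, e5] at h; cases h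
    · rw [e5, e5] at h; rw [hI.2 y (inr.inj h)]

/-- the nine-cell trade -/
theorem trade {X : Type} [DecidableEq X] (L : X → X → X) (hL : Lat L)
    (r1 r2 r3 r4 c1 c2 c3 c4 s t u : X)
    (r12 : r1 ≠ r2) (r13 : r1 ≠ r3) (r14 : r1 ≠ r4) (r23 : r2 ≠ r3) (r34 : r3 ≠ r4)
    (c12 : c1 ≠ c2) (c13 : c1 ≠ c3) (c14 : c1 ≠ c4) (c23 : c2 ≠ c3) (c34 : c3 ≠ c4)
    (st : s ≠ t) (su : s ≠ u) (tu : t ≠ u)
    (h11 : L r1 c1 = s) (h12 : L r1 c2 = t) (h13 : L r1 c3 = u) (h21 : L r2 c1 = t)
    (h24 : L r2 c4 = u) (h31 : L r3 c1 = u) (h33 : L r3 c3 = s) (h42 : L r4 c2 = u)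
    (h44 : L r4 c4 = t) :
    ∃ L' : X → X → X, Lat L' ∧ L' r1 c1 = t ∧ ∀ r c,
      (r = r1 → c ≠ c1 ∧ c ≠ c2 ∧ c ≠ c3) → (r = r2 → c ≠ c1 ∧ c ≠ c4) →
      (r = r3 → c ≠ c1 ∧ c ≠ c3) → (r = r4 → c ≠ c2 ∧ c ≠ c4) → L' r c = L r c := by
  let tw : X → X → X → X → X → Equiv.Perm X := fun a1 a2 a3 a4 r =>
    if r = a1 then Equiv.swap s u * Equiv.swap s t else if r = a3 then Equiv.swap s u
    else if r = a2 ∨ r = a4 then Equiv.swap t u else 1
  have iff : ∀ {r c r' c' v}, L r c = v → L r' c' = v → (r = r' ↔ c = c') := by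
    intro r c r' c' v h h'
    constructor
    · rintro rfl; exact hL.1 r (h.trans h'.symm)
    · rintro rfl; exact hL.2 c (h.trans h'.symm)
  have fix : ∀ a1 a2 a3 a4 r v, v ≠ s → v ≠ t → v ≠ u → tw a1 a2 a3 a4 r v = v := by
    intro a1 a2 a3 a4 r v h1 h2 h3
    simp only [tw]
    split_ifs <;> simp [Equiv.swap_apply_of_ne_of_ne, h1, h2, h3]
  have vs : ∀ a1 a2 a3 a4 r, tw a1 a2 a3 a4 r s = if r = a1 then t else if r = a3 then u else s := by
    intro a1 a2 a3 a4 r
    simp only [tw]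
    split_ifs <;> simp [Equiv.swap_apply_of_ne_of_ne, st, su, tu, st.symm]
  have vt : ∀ a1 a2 a3 a4 r, tw a1 a2 a3 a4 r t =
      if r = a1 then u else if r = a3 then t else if r = a2 ∨ r = a4 then u else t := by
    intro a1 a2 a3 a4 r
    simp only [tw]
    split_ifs <;> simp [Equiv.swap_apply_of_ne_of_ne, tu, st.symm]
  have vu : ∀ a1 a2 a3 a4 r, tw a1 a2 a3 a4 r u =
      if r = a1 then s else if r = a3 then s else if r = a2 ∨ r = a4 then t else u := by
    intro a1 a2 a3 a4 r
    simp only [tw]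
    split_ifs <;> simp [Equiv.swap_apply_of_ne_of_ne, su.symm, tu.symm]
  have key : ∀ r c, tw r1 r2 r3 r4 r (L r c) = tw c1 c2 c3 c4 c (L r c) := by
    intro r c
    by_cases hs : L r c = s
    · rw [hs, vs, vs]; simp only [iff hs h11, iff hs h33]
    by_cases ht : L r c = t
    · rw [ht, vt, vt]
      have a1 := iff ht h12
      have a2 := iff ht h21
      have a3 := iff ht h44
      split_ifs <;> first | rfl | (exfalso; grind)
    by_cases hu : L r c = u
    · rw [hu, vu, vu]
      have a1 := iff hu h13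
      have a2 := iff hu h24
      have a3 := iff hu h31
      have a4 := iff hu h42
      split_ifs <;> first | rfl | (exfalso; grind)
    rw [fix _ _ _ _ _ _ hs ht hu, fix _ _ _ _ _ _ hs ht hu]
  refine ⟨fun r c => tw r1 r2 r3 r4 r (L r c), ⟨fun r c c' h => ?_, fun c r r' h => ?_⟩, ?_, ?_⟩
  · exact hL.1 r ((tw r1 r2 r3 r4 r).injective h)
  · simp only [key] at h
    exact hL.2 c ((tw c1 c2 c3 c4 c).injective h)
  · simp only [h11, vs, if_true]
  · intro r c g1 g2 g3 g4
    simp only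
    by_cases hs : L r c = s
    · rw [hs, vs]
      have a1 := iff hs h11
      have a2 := iff hs h33
      split_ifs <;> first | rfl | (exfalso; grind)
    by_cases ht : L r c = t
    · rw [ht, vt]
      have a1 := iff ht h12
      have a2 := iff ht h21
      have a3 := iff ht h44
      split_ifs <;> first | rfl | (exfalso; grind)
    by_cases hu : L r c = u
    · rw [hu, vu]
      have a1 := iff hu h13
      have a2 := iff hu h24
      have a3 := iff hu h31
      have a4 := iff hu h42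
      split_ifs <;> first | rfl | (exfalso; grind)
    exact fix _ _ _ _ _ _ hs ht hu

end Pool.Agent.FS.H31P
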