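import Mathlib
import Pool.Agent.FS.H31P.A

namespace Pool.Agent.FS.H31P
open Finset Function Sum

lemma exE {M k : ℕ} (hM : 2 * k + 1 ≤ M) (hk : 1 ≤ k) :
    ∃ (E : Finset (ZMod M)) (w : ZMod M), E.card = k ∧ (∀ a ∈ E, a + 1 ∉ E) ∧ w ∉ E ∧
      w + 1 ∉ E := by
  have inj : ∀ a b : ℕ, a < M → b < M → (a : ZMod M) = b → a = b := by
    intro a b ha hb h
    have := (ZMod.natCast_eq_natCast_iff' a b M).1 h
    rwa [Nat.mod_eq_of_lt ha, Nat.mod_eq_of_lt hb] at this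
  refine ⟨(range k).image fun i => ((2 * i : ℕ) : ZMod M), ((2 * k - 1 : ℕ) : ZMod M), ?_, ?_, ?_,
    ?_⟩
  · rw [card_image_of_injOn, card_range]
    intro a ha b hb h
    simp only [coe_range, Set.mem_Iio] at ha hb
    have := inj _ _ (by omega) (by omega) h
    omega
  · intro a ha hb
    obtain ⟨i, hi, rfl⟩ := mem_image.1 ha
    obtain ⟨j, hj, h⟩ := mem_image.1 hb
    rw [mem_range] at hi hj
    have := inj (2 * j) (2 * i + 1) (by omega) (by omega) (by rw [h]; push_cast; ring)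
    omega
  · intro hb
    obtain ⟨j, hj, h⟩ := mem_image.1 hb
    rw [mem_range] at hj
    have := inj _ _ (by omega) (by omega) h
    omega
  · intro hb
    obtain ⟨j, hj, h⟩ := mem_image.1 hb
    rw [mem_range] at hj
    have := inj (2 * j) (2 * k - 1 + 1) (by omega) (by omega) (by rw [h]; push_cast; ring)
    omega

lemma exPhi {T J : Type} [Fintype T] [Fintype J] {M k : ℕ} [NeZero M] (hk : 2 ≤ k) (h8 : 8 ≤ M)
    (hM : Fintype.card T + k ≤ M) (e a : J → T) (he : Injective e) (ha : Injective a)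
    (hea : ∀ j j', e j ≠ a j') (idx : J → Fin 2) (hidx : Injective idx) :
    ∃ (φ : T → ZMod M) (F : Finset (ZMod M)) (p : J → ZMod M), Injective φ ∧ F.card = k ∧
      (∀ x, φ x ∉ F) ∧ Injective p ∧ (∀ j, p j ∈ F) ∧ (∀ j, φ (e j) = p j - 2) ∧
      ∀ j, φ (a j) = p j + 1 := by
  classical
  have inj : ∀ a b : ℕ, a < M → b < M → (a : ZMod M) = b → a = b := by
    intro a b ha hb h
    have := (ZMod.natCast_eq_natCast_iff' a b M).1 h
    rwa [Nat.mod_eq_of_lt ha, Nat.mod_eq_of_lt hb] at this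
  let ψ : J ⊕ J ⊕ J → T ⊕ Fin k := Sum.elim (fun j => inl (e j))
    (Sum.elim (fun j => inl (a j)) fun j => inr (Fin.castLE hk (idx j)))
  let vn : J ⊕ J ⊕ J → ℕ := Sum.elim (fun j => 4 * idx j)
    (Sum.elim (fun j => 4 * idx j + 3) fun j => 4 * idx j + 2)
  have hψ : Injective ψ := by
    rintro (i | i | i) (j | j | j) h <;> simp [ψ] at h
    · rw [he h]
    · exact absurd h (hea _ _)
    · exact absurd h.symm (hea _ _)
    · rw [ha h]
    · rw [hidx h]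
  have hlt : ∀ i, vn i < M := by
    rintro (i | i | i) <;> simp only [vn, Sum.elim_inl, Sum.elim_inr] <;>
      have := (idx i).2 <;> omega
  have hv : Injective fun i => ((vn i : ℕ) : ZMod M) := by
    intro i j h
    have := inj _ _ (hlt i) (hlt j) h
    rcases i with i | i | i <;> rcases j with j | j | j <;>
      simp only [vn, Sum.elim_inl, Sum.elim_inr] at this <;>
      first | (exfalso; omega) | rw [hidx (Fin.ext (by omega) : idx i = idx j)]
  obtain ⟨g, hg, hgv⟩ := ext2 ψ _ hψ hv (by simpa using hM)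
  refine ⟨fun x => g (inl x), univ.image fun i => g (inr i),
    fun j => g (inr (Fin.castLE hk (idx j))), fun x y h => inl.inj (hg h), ?_, ?_, ?_, ?_, ?_, ?_⟩
  · rw [card_image_of_injective _ fun x y h => inr.inj (hg h)]; simp
  · intro x hx
    obtain ⟨i, -, h⟩ := mem_image.1 hx
    cases hg h
  · intro i j h
    exact hidx (Fin.castLE_injective hk (inr.inj (hg h)))
  · intro j; exact mem_image_of_mem _ (mem_univ _)
  · intro j
    have h1 := hgv (inl j)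
    have h2 := hgv (inr (inr j))
    simp only [ψ, vn, Sum.elim_inl, Sum.elim_inr] at h1 h2
    simp only [h1, h2]; push_cast; ring
  · intro j
    have h1 := hgv (inr (inl j))
    have h2 := hgv (inr (inr j))
    simp only [ψ, vn, Sum.elim_inl, Sum.elim_inr] at h1 h2
    simp only [h1, h2]; push_cast; ring

/-- the set of cells of the plex and the sum of any function over it -/
lemma cells {T J : Type} [Fintype J] [DecidableEq T] {M : ℕ} [NeZero M]
    (K : Finset (T × T)) (e : J → T) (he : Injective e)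
    (F E : Finset (ZMod M)) (p : J → ZMod M) (hp : Injective p)
    (hpF : ∀ j, p j ∈ F) (hp1 : ∀ j, p j + 1 ∉ F) (hE : ∀ a ∈ E, a + 1 ∉ E) :
    ∃ P : Finset ((ZMod M ⊕ T) × (ZMod M ⊕ T)),
      (∀ c ∈ P, (∃ q ∈ K, c = (inr q.1, inr q.2)) ∨ (∃ a, ∃ f ∈ F, c = (inl a, inl (a + f))) ∨
        (∃ j, ∃ a ∈ E, c = (inr (e j), inl (a + p j))) ∨
        (∃ j, ∃ a ∈ E, c = (inl (a + 1), inr (e j))) ∨
        (∃ j, ∃ a ∈ E, c = (inl a, inl (a + 1 + p j)))) ∧
      ∀ G : (ZMod M ⊕ T) × (ZMod M ⊕ T) → ℤ, ∑ c ∈ P, G c =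
        ∑ q ∈ K, G (inr q.1, inr q.2) + ∑ f ∈ F, ∑ a, G (inl a, inl (a + f)) +
        ∑ j, ∑ a ∈ E, (G (inr (e j), inl (a + p j)) + G (inl (a + 1), inr (e j)) +
          G (inl a, inl (a + 1 + p j)) - G (inl a, inl (a + p j)) -
          G (inl (a + 1), inl (a + 1 + p j))) := by
  classical
  let K' : Finset ((ZMod M ⊕ T) × (ZMod M ⊕ T)) :=
    K.image fun q => (inr q.1, inr q.2)
  let A : Finset ((ZMod M ⊕ T) × (ZMod M ⊕ T)) :=
    (F ×ˢ univ).image fun z : ZMod M × ZMod M => (inl z.2, inl (z.2 + z.1))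
  let B1 : Finset ((ZMod M ⊕ T) × (ZMod M ⊕ T)) :=
    (univ ×ˢ E).image fun z : J × ZMod M => (inl z.2, inl (z.2 + p z.1))
  let B2 : Finset ((ZMod M ⊕ T) × (ZMod M ⊕ T)) :=
   
    (univ ×ˢ E).image fun z : J × ZMod M => (inl (z.2 + 1), inl (z.2 + 1 + p z.1))
  let C1 : Finset ((ZMod M ⊕ T) × (ZMod M ⊕ T)) :=
    (univ ×ˢ E).image fun z : J × ZMod M => (inr (e z.1), inl (z.2 + p z.1))
  let C2 : Finset ((ZMod M ⊕ T) × (ZMod M ⊕ T)) :=
    (univ ×ˢ E).image fun z : J × ZMod M => (inl (z.2 + 1), inr (e z.1))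
  let C3 : Finset ((ZMod M ⊕ T) × (ZMod M ⊕ T)) :=
    (univ ×ˢ E).image fun z : J × ZMod M => (inl z.2, inl (z.2 + 1 + p z.1))
  have mK : ∀ c ∈ K', ∃ q ∈ K, c = (inr q.1, inr q.2) := by
    intro c hc; obtain ⟨q, hq, rfl⟩ := mem_image.1 hc; exact ⟨q, hq, rfl⟩
  have mA : ∀ c, c ∈ A ↔ ∃ a, ∃ f ∈ F, c = (inl a, inl (a + f)) := by
    intro c; constructor
    · intro hc; obtain ⟨q, hq, rfl⟩ := mem_image.1 hc
      exact ⟨q.2, q.1, (mem_product.1 hq).1, rfl⟩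
    · rintro ⟨a, f, hf, rfl⟩
      exact mem_image.2 ⟨(f, a), mem_product.2 ⟨hf, mem_univ _⟩, rfl⟩
  have mB1 : ∀ c ∈ B1, ∃ j, ∃ a ∈ E, c = (inl a, inl (a + p j)) := by
    intro c hc; obtain ⟨q, hq, rfl⟩ := mem_image.1 hc; exact ⟨q.1, q.2, (mem_product.1 hq).2, rfl⟩
  have mB2 : ∀ c ∈ B2, ∃ j, ∃ a ∈ E, c = (inl (a + 1), inl (a + 1 + p j)) := by
    intro c hc; obtain ⟨q, hq, rfl⟩ := mem_image.1 hc; exact ⟨q.1, q.2, (mem_product.1 hq).2, rfl⟩
  have mC1 : ∀ c ∈ C1, ∃ j, ∃ a ∈ E, c = (inr (e j), inl (a + p j)) := by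
    intro c hc; obtain ⟨q, hq, rfl⟩ := mem_image.1 hc; exact ⟨q.1, q.2, (mem_product.1 hq).2, rfl⟩
  have mC2 : ∀ c ∈ C2, ∃ j, ∃ a ∈ E, c = (inl (a + 1), inr (e j)) := by
    intro c hc; obtain ⟨q, hq, rfl⟩ := mem_image.1 hc; exact ⟨q.1, q.2, (mem_product.1 hq).2, rfl⟩
  have mC3 : ∀ c ∈ C3, ∃ j, ∃ a ∈ E, c = (inl a, inl (a + 1 + p j)) := by
    intro c hc; obtain ⟨q, hq, rfl⟩ := mem_image.1 hc; exact ⟨q.1, q.2, (mem_product.1 hq).2, rfl⟩
  refine ⟨K' ∪ (C1 ∪ (C2 ∪ (C3 ∪ (A \ (B1 ∪ B2))))), ?_, fun G => ?_⟩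
  · intro c hc
    simp only [mem_union, mem_sdiff] at hc
    rcases hc with h | h | h | h | h
    · exact Or.inl (mK c h)
    · exact Or.inr (Or.inr (Or.inl (mC1 c h)))
    · exact Or.inr (Or.inr (Or.inr (Or.inl (mC2 c h))))
    · exact Or.inr (Or.inr (Or.inr (Or.inr (mC3 c h))))
    · exact Or.inr (Or.inl ((mA c).1 h.1))
  have d4 : Disjoint C3 (A \ (B1 ∪ B2)) := by
    refine Finset.disjoint_left.2 fun c h h' => ?_
    obtain ⟨j, a, -, rfl⟩ := mC3 c h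
    obtain ⟨b, f, hf, h2⟩ := (mA _).1 (mem_sdiff.1 h').1
    simp only [Prod.mk.injEq, inl.injEq] at h2
    obtain ⟨rfl, h2⟩ := h2
    exact hp1 j (by rw [show p j + 1 = f by linear_combination h2]; exact hf)
  have s4 : ∀ c ∈ C3 ∪ (A \ (B1 ∪ B2)), ∃ a b, c = (inl a, inl b) := by
    intro c hc
    rcases mem_union.1 hc with h | h
    · obtain ⟨j, a, -, rfl⟩ := mC3 c h; exact ⟨_, _, rfl⟩
    · obtain ⟨b, f, -, rfl⟩ := (mA _).1 (mem_sdiff.1 h).1; exact ⟨_, _, rfl⟩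
  have d3 : Disjoint C2 (C3 ∪ (A \ (B1 ∪ B2))) := by
    refine Finset.disjoint_left.2 fun c h h' => ?_
    obtain ⟨j, a, -, rfl⟩ := mC2 c h
    obtain ⟨b, f, h2⟩ := s4 _ h'
    simp at h2
  have d2 : Disjoint C1 (C2 ∪ (C3 ∪ (A \ (B1 ∪ B2)))) := by
    refine Finset.disjoint_left.2 fun c h h' => ?_
    obtain ⟨j, a, -, rfl⟩ := mC1 c h
    rcases mem_union.1 h' with h' | h'
    · obtain ⟨j, a, -, h2⟩ := mC2 _ h'; simp at h2
    · obtain ⟨b, f, h2⟩ := s4 _ h'; simp at h2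
  have d1 : Disjoint K' (C1 ∪ (C2 ∪ (C3 ∪ (A \ (B1 ∪ B2))))) := by
    refine Finset.disjoint_left.2 fun c h h' => ?_
    obtain ⟨q, -, rfl⟩ := mK c h
    rcases mem_union.1 h' with h' | h'
    · obtain ⟨j, a, -, h2⟩ := mC1 _ h'; simp at h2
    rcases mem_union.1 h' with h' | h'
    · obtain ⟨j, a, -, h2⟩ := mC2 _ h'; simp at h2
    · obtain ⟨b, f, h2⟩ := s4 _ h'; simp at h2
  have d5 : Disjoint B1 B2 := by
    refine Finset.disjoint_left.2 fun c h h' => ?_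
    obtain ⟨j, a, ha, rfl⟩ := mB1 c h
    obtain ⟨j', b, hb, h2⟩ := mB2 _ h'
    simp only [Prod.mk.injEq, inl.injEq] at h2
    exact hE b hb (h2.1 ▸ ha)
  have sub : B1 ∪ B2 ⊆ A := by
    intro c hc
    rcases mem_union.1 hc with h | h
    · obtain ⟨j, a, -, rfl⟩ := mB1 c h; exact (mA _).2 ⟨_, _, hpF j, rfl⟩
    · obtain ⟨j, a, -, rfl⟩ := mB2 c h; exact (mA _).2 ⟨_, _, hpF j, rfl⟩
  rw [sum_union d1, sum_union d2, sum_union d3, sum_union d4, sum_sdiff_eq_sub sub, sum_union d5]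
  simp only [K', A, B1, B2, C1, C2, C3]
  rw [sum_image, sum_image, sum_image, sum_image, sum_image, sum_image, sum_image]
  · simp only [sum_product, sum_add_distrib, sum_sub_distrib]; ring
  all_goals
    rintro ⟨x, y⟩ - ⟨x', y'⟩ - h
    simp only [Prod.mk.injEq, inl.injEq, inr.injEq] at h ⊢
  · obtain rfl := add_right_cancel h.1
    exact ⟨hp (add_left_cancel h.2), rfl⟩
  · obtain ⟨rfl, h⟩ := h
    exact ⟨hp (add_left_cancel h), rfl⟩
  · obtain ⟨rfl, h⟩ := h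
    exact ⟨add_left_cancel h, rfl⟩
  · obtain ⟨rfl, h⟩ := h
    exact ⟨hp (add_left_cancel h), rfl⟩
  · exact ⟨he h.2, add_right_cancel h.1⟩
  · obtain rfl := he h.1
    exact ⟨rfl, add_right_cancel h.2⟩
  · exact h

/-- a line outside the inner protoplex -/
def Out {T J : Type} {M : ℕ} (e : J → T) (v : ZMod M ⊕ T) : Prop :=
  (∃ a, v = inl a) ∨ ∃ j, v = inr (e j)

theorem outer {T J : Type} [Fintype T] [Fintype J] [DecidableEq T] {M k : ℕ} [NeZero M]
    (hodd : Odd M) (hk : 2 ≤ k) (h8 : 8 ≤ M) (hM : Fintype.card T + k ≤ M) (hM2 : 2 * k + 1 ≤ M)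
    (I : T → T → T) (hI : Lat I) (e σ a : J → T) (he : Injective e) (hσ : Injective σ)
    (ha : Injective a) (hea : ∀ j j', e j ≠ a j') (idx : J → Fin 2) (hidx : Injective idx)
    (x : T) (j0 : J) (t : T) (hx : ∀ j, e j ≠ x) (hxa : ∀ j, a j ≠ x)
    (h1 : I x (e j0) = t) (h2 : I (e j0) x = t) (hs : ∀ j, σ j ≠ I x x) (ht : ∀ j, σ j ≠ t)
    (K : Finset (T × T)) (hK : ∀ q ∈ K, q.1 ≠ e j0 ∧ q.2 ≠ e j0)
    (k1 : ∀ f : T → ℤ, ∑ q ∈ K, f q.1 = k * (∑ y, f y - ∑ j, f (e j)))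
    (k2 : ∀ f : T → ℤ, ∑ q ∈ K, f q.2 = k * (∑ y, f y - ∑ j, f (e j)))
    (k3 : ∀ f : T → ℤ, ∑ q ∈ K, f (if q = (x, x) then t else I q.1 q.2) =
      k * (∑ y, f y - ∑ j, f (σ j))) :
    ∃ L : ZMod M ⊕ T → ZMod M ⊕ T → ZMod M ⊕ T, Lat L ∧
      ∃ P : Finset ((ZMod M ⊕ T) × (ZMod M ⊕ T)),
      (∀ f : ZMod M ⊕ T → ℤ, ∑ p ∈ P, f p.1 = k * ∑ y, f y) ∧
      (∀ f : ZMod M ⊕ T → ℤ, ∑ p ∈ P, f p.2 = k * ∑ y, f y) ∧
      (∀ f : ZMod M ⊕ T → ℤ, ∑ p ∈ P, f (L p.1 p.2) = k * ∑ y, f y) ∧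
      L (inr x) (inr x) = inr t ∧
      ∀ c ∈ P, (∃ q ∈ K, c = (inr q.1, inr q.2) ∧
          L c.1 c.2 = inr (if q = (x, x) then t else I q.1 q.2)) ∨
        (Out e c.1 ∧ Out e c.2 ∧ Out σ (L c.1 c.2)) := by
  classical
  have hu : IsUnit (2 : ZMod M) := by
    have := (ZMod.isUnit_iff_coprime 2 M).2 (Nat.coprime_two_left.2 hodd)
    simpa using this
  obtain ⟨hf, hhf⟩ := hu.exists_right_inv
  have hst : I x x ≠ t := fun h => hx j0 (hI.1 x (h1.trans h.symm))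
  obtain ⟨E, w0, cE, hE, hw0, hw1⟩ := exE hM2 (by omega)
  obtain ⟨φ, F, p, hφ, cF, hφF, hp, hpF, hpe, hpa⟩ := exPhi hk h8 hM e a he ha hea idx hidx
  obtain ⟨π, hπ, hπv⟩ := ext2 (ι := Bool ⊕ J)
    (Sum.elim (fun b => bif b then I x x else t) σ) (Sum.elim (fun b => bif b then x else e j0) a)
    (by
      rintro ((_ | _) | i) ((_ | _) | j) h <;> simp at h ⊢ <;>
        first | exact hst h | exact hst h.symm | exact hs _ h | exact hs _ h.symm | exact ht _ h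
              | exact ht _ h.symm | exact hσ h)
    (by
      rintro ((_ | _) | i) ((_ | _) | j) h <;> simp at h ⊢ <;>
        first | exact hx _ h | exact hx _ h.symm | exact hxa _ h | exact hxa _ h.symm
              | exact hea _ _ h | exact hea _ _ h.symm | exact ha h) le_rfl
  have π1 : π (I x x) = x := hπv (inl true)
  have π2 : π t = e j0 := hπv (inl false)
  have π3 : ∀ j, π (σ j) = a j := fun j => hπv (inr j)
  obtain ⟨L, hL, e1, e2, e3, e4, e5⟩ :=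
    prolong hu I hI φ hφ π (Finite.injective_iff_bijective.1 hπ)
  have hxz : φ x ≠ φ (e j0) := fun h => hx j0 (hφ h).symm
  obtain ⟨w', hw'⟩ : ∃ w', w' = w0 + p j0 := ⟨_, rfl⟩
  obtain ⟨u, hu'⟩ : ∃ u, u = 2 * w' - φ (e j0) := ⟨_, rfl⟩
  obtain ⟨w, hw⟩ : ∃ w, 2 * w = u + φ x := ⟨hf * (u + φ x), by rw [← mul_assoc, hhf, one_mul]⟩
  obtain ⟨L', hL', t0, t1⟩ := trade L hL (inr x) (inr (e j0)) (inl (w - φ x))
    (inl (w' - φ (e j0))) (inr x) (inr (e j0)) (inl w) (inl w') (inr (I x x)) (inr t) (inl u)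
    (fun h => hx j0 (inr.inj h).symm) (by simp) (by simp) (by simp)
    (fun h => hxz (by linear_combination hw + hu' - 2 * inl.inj h))
    (fun h => hx j0 (inr.inj h).symm) (by simp) (by simp) (by simp)
    (fun h => hxz (by linear_combination 2 * inl.inj h - hw - hu'))
    (fun h => hst (inr.inj h)) (by simp) (by simp)
    (e5 _ _) (by rw [e5, h1]) (by rw [e4]; congr 1; linear_combination hw) (by rw [e5, h2])
    (by rw [e4, hu']) (by rw [e3]; congr 1; linear_combination hw)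
    (e2 _ _ _ (by rw [π1]; ring)) (by rw [e3]; congr 1; linear_combination -hu')
    (e2 _ _ _ (by rw [π2]; ring))
  have hp1 : ∀ j, p j + 1 ∉ F := fun j => hpa j ▸ hφF (a j)
  have vK : ∀ q ∈ K, L' (inr q.1) (inr q.2) = inr (if q = (x, x) then t else I q.1 q.2) := by
    rintro ⟨y, y'⟩ hq
    have := hK _ hq
    split_ifs with h
    · cases h; exact t0
    · rw [t1, e5] <;> simp_all
  have vA : ∀ b, ∀ f ∈ F, L' (inl b) (inl (b + f)) = inl (b + (b + f)) := by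
    intro b f hf
    have h0 : ∀ s, φ s ≠ f := fun s h => hφF s (h ▸ hf)
    rw [t1, e1 _ _ (by simpa using h0)]
    · simp
    · simp
    · intro h
      exact ⟨by simp, fun h' => h0 x (by linear_combination inl.inj h - inl.inj h')⟩
    · intro h
      exact ⟨by simp, fun h' => h0 (e j0) (by linear_combination inl.inj h - inl.inj h')⟩
  have v1 : ∀ j, ∀ b ∈ E, L' (inr (e j)) (inl (b + p j)) = inl (b + 1 + (b + 1 + p j)) := by
    intro j b hb
    rw [t1, e4, hpe]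
    · congr 1; ring
    · intro h; exact absurd (inr.inj h) (hx j)
    · intro h
      obtain rfl := he (inr.inj h)
      refine ⟨by simp, fun h' => hw0 ?_⟩
      rw [show w0 = b by linear_combination - inl.inj h' - hw']; exact hb
    · simp
    · simp
  have v2 : ∀ j, ∀ b ∈ E, L' (inl (b + 1)) (inr (e j)) = inl (b + (b + p j)) := by
    intro j b hb
    rw [t1, e3, hpe]
    · congr 1; ring
    · simp
    · simp
    · intro h; exact ⟨fun h' => hx j (inr.inj h'), by simp⟩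
    · intro h
      refine ⟨fun h' => hw1 ?_, by simp⟩
      rw [show w0 + 1 = b by linear_combination - inl.inj h - hw' + hpe j0]; exact hb
  have v3 : ∀ j b, L' (inl b) (inl (b + 1 + p j)) = inr (σ j) := by
    intro j b
    rw [t1, e2 _ _ (σ j) (by rw [π3, hpa]; ring)]
    · simp
    · simp
    · intro h
      exact ⟨by simp, fun h' => hxa j (hφ (by
        linear_combination hpa j - inl.inj h + inl.inj h'))⟩
    · intro h
      exact ⟨by simp, fun h' => hea j0 j (hφ (by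
        linear_combination - hpa j + inl.inj h - inl.inj h'))⟩
  obtain ⟨P, mP, sP⟩ := cells K e he F E p hp hpF hp1 hE
  refine ⟨L', hL', P, fun f => ?_, fun f => ?_, fun f => ?_, t0, fun c hc => ?_⟩
  · rw [sP fun c => f c.1, k1 fun y => f (inr y), Fintype.sum_sum_type]
    have : ∀ j, ∑ b ∈ E, (f (inr (e j)) + f (inl (b + 1)) + f (inl b) - f (inl b) -
        f (inl (b + 1))) = k * f (inr (e j)) := by
      intro j
      rw [Finset.sum_congr rfl (g := fun _ => f (inr (e j))) (fun b _ => by ring)]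
      simp [cE]
    simp only [this, sum_const, cF, nsmul_eq_mul, ← mul_sum]; ring
  · rw [sP fun c => f c.2, k2 fun y => f (inr y), Fintype.sum_sum_type]
    have : ∀ j, ∑ b ∈ E, (f (inl (b + p j)) + f (inr (e j)) + f (inl (b + 1 + p j)) -
        f (inl (b + p j)) - f (inl (b + 1 + p j))) = k * f (inr (e j)) := by
      intro j
      rw [Finset.sum_congr rfl (g := fun _ => f (inr (e j))) (fun b _ => by ring)]
      simp [cE]
    have h' : ∀ g, ∑ b, f (inl (b + g)) = ∑ b, f (inl b) := fun g =>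
      Equiv.sum_comp (Equiv.addRight g) fun b => f (inl b)
    simp only [this, h', sum_const, cF, nsmul_eq_mul, ← mul_sum]; ring
  · rw [sP fun c => f (L' c.1 c.2), Fintype.sum_sum_type]
    have h0 : ∑ q ∈ K, f (L' (inr q.1) (inr q.2)) = k * (∑ y, f (inr y) - ∑ j, f (inr (σ j))) := by
      rw [← k3 fun y => f (inr y)]
      exact Finset.sum_congr rfl fun q hq => by rw [vK q hq]
    have : ∀ j, ∑ b ∈ E, (f (L' (inr (e j)) (inl (b + p j))) + f (L' (inl (b + 1)) (inr (e j))) +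
        f (L' (inl b) (inl (b + 1 + p j))) - f (L' (inl b) (inl (b + p j))) -
        f (L' (inl (b + 1)) (inl (b + 1 + p j)))) = k * f (inr (σ j)) := by
      intro j
      rw [Finset.sum_congr rfl (g := fun _ => f (inr (σ j))) (fun b hb => by
        rw [v1 j b hb, v2 j b hb, v3, vA _ _ (hpF j), vA _ _ (hpF j)]; ring)]
      simp [cE]
    have h' : ∀ g ∈ F, ∑ b, f (L' (inl b) (inl (b + g))) = ∑ b, f (inl b) := by
      intro g hg
      have hb : Bijective fun b : ZMod M => b + (b + g) :=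
        Finite.injective_iff_bijective.1 fun b b' h =>
          hu.mul_left_cancel (by linear_combination (h : b + (b + g) = b' + (b' + g)))
      rw [← hb.sum_comp fun b => f (inl b)]
      exact Finset.sum_congr rfl fun b _ => by rw [vA b g hg]
    simp only [h0, this, Finset.sum_congr rfl h', sum_const, cF, nsmul_eq_mul, ← mul_sum]; ring
  · rcases mP c hc with ⟨q, hq, rfl⟩ | ⟨b, f, hf, rfl⟩ | ⟨j, b, hb, rfl⟩ | ⟨j, b, hb, rfl⟩ |
      ⟨j, b, hb, rfl⟩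
    · exact Or.inl ⟨q, hq, rfl, vK q hq⟩
    · exact Or.inr ⟨Or.inl ⟨_, rfl⟩, Or.inl ⟨_, rfl⟩, Or.inl ⟨_, vA b f hf⟩⟩
    · exact Or.inr ⟨Or.inr ⟨_, rfl⟩, Or.inl ⟨_, rfl⟩, Or.inl ⟨_, v1 j b hb⟩⟩
    · exact Or.inr ⟨Or.inl ⟨_, rfl⟩, Or.inr ⟨_, rfl⟩, Or.inl ⟨_, v2 j b hb⟩⟩
    · exact Or.inr ⟨Or.inl ⟨_, rfl⟩, Or.inl ⟨_, rfl⟩, Or.inr ⟨_, v3 j b⟩⟩

end Pool.Agent.FS.H31P
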