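import Mathlib

namespace Pool.Agent.FS.H31P
open Finset Function

lemma cinj {N : ℕ} (hN : 33 ≤ N) (a b : ℤ) (h1 : a - b ≤ 32) (h2 : b - a ≤ 32)
    (h : (a : ZMod N) = b) : a = b := by
  have hd := (ZMod.intCast_eq_intCast_iff_dvd_sub a b N).1 h
  have := Int.eq_zero_of_abs_lt_dvd hd (by rw [abs_lt]; constructor <;> omega)
  omega

lemma base_sum {N : ℕ} [NeZero N] (h2 : (2 : ZMod N) ≠ 0) (G : ZMod N × ZMod N → ℤ) :
    ∑ p ∈ univ.filter (fun p : ZMod N × ZMod N => p.1 ≠ 0 ∧ p.2 ≠ 0 ∧ p.1 + p.2 ≠ 2), G p =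
      ∑ x, ∑ y, G (x, y) - ∑ y, G (0, y) - ∑ x, G (x, 0) - ∑ x, G (x, 2 - x) +
        G (0, 0) + G (0, 2) + G (2, 0) := by
  have pt : ∀ x y : ZMod N, (if x ≠ 0 ∧ y ≠ 0 ∧ x + y ≠ 2 then G (x, y) else 0) =
      G (x, y) - (if x = 0 then G (x, y) else 0) - (if y = 0 then G (x, y) else 0) -
        (if y = 2 - x then G (x, y) else 0) + (if x = 0 then if y = 0 then G (x, y) else 0 else 0) +
        (if x = 0 then if y = 2 then G (x, y) else 0 else 0) +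
        (if x = 2 then if y = 0 then G (x, y) else 0 else 0) := by
    intro x y
    have e : x + y = 2 ↔ y = 2 - x := by rw [eq_sub_iff_add_eq, add_comm]
    by_cases hx : x = 0
    · subst hx
      by_cases hy : y = 0
      · subst hy; simp [h2.symm]
      · by_cases hy2 : y = 2 <;> simp [hy, hy2, h2, h2.symm]
    · by_cases hy : y = 0
      · subst hy
        by_cases hx2 : x = 2
        · subst hx2; simp [h2]
        · have : ¬ (0 : ZMod N) = 2 - x := fun h => hx2 (by linear_combination h)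
          simp [hx, hx2, this]
      · by_cases h3 : y = 2 - x
        · simp [hx, hy, e, if_pos h3]
        · simp [hx, hy, e, h3]
  rw [sum_filter, Fintype.sum_prod_type]
  simp only [pt, sum_add_distrib, sum_sub_distrib, sum_ite_irrel, sum_const_zero, sum_ite_eq',
    mem_univ, if_true]

lemma diag_sum {N : ℕ} [NeZero N] (hu : IsUnit (2 : ZMod N)) (f h : ZMod N) (hh : 2 * h + f = 2)
    (G : ZMod N × ZMod N → ℤ) :
    ∑ p ∈ (univ.filter (fun p : ZMod N × ZMod N => p.1 ≠ 0 ∧ p.2 ≠ 0 ∧ p.1 + p.2 ≠ 2)).filter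
      (fun p => p.2 - p.1 = f), G p =
      ∑ x, G (x, x + f) - ∑ x ∈ ({0, -f, h} : Finset (ZMod N)), G (x, x + f) := by
  rw [← sum_sdiff_eq_sub (subset_univ _)]
  symm
  refine sum_nbij' (fun x => (x, x + f)) (fun p => p.1) ?_ ?_ ?_ ?_ ?_
  · intro x hx
    simp only [mem_sdiff, mem_univ, true_and, mem_insert, mem_singleton, not_or] at hx
    simp only [mem_filter, mem_univ, true_and]
    exact ⟨⟨hx.1, fun e => hx.2.1 (by linear_combination e),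
      fun e => hx.2.2 (hu.mul_left_cancel (by linear_combination e - hh))⟩, by ring⟩
  · intro p hp
    simp only [mem_filter, mem_univ, true_and] at hp
    simp only [mem_sdiff, mem_univ, true_and, mem_insert, mem_singleton, not_or]
    exact ⟨hp.1.1, fun e => hp.1.2.1 (by linear_combination e + hp.2),
      fun e => hp.1.2.2 (by linear_combination 2 * e + hp.2 + hh)⟩
  · intro x _; rfl
  · intro p hp
    simp only [mem_filter] at hp
    exact Prod.ext rfl (by simp only; linear_combination -hp.2)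
  · intro x _; rfl

lemma gsum {N : ℕ} [NeZero N] (hN : 33 ≤ N) (hu : IsUnit (2 : ZMod N)) (Fz : Finset ℤ)
    (Xz Yz : Finset (ℤ × ℤ)) (hF : ∀ f ∈ Fz, -8 ≤ f ∧ f ≤ 8 ∧ f % 2 = 0)
    (hX : ∀ p ∈ Xz, -12 ≤ p.1 ∧ p.1 ≤ 12 ∧ -12 ≤ p.2 ∧ p.2 ≤ 12 ∧ p.1 ≠ 0 ∧ p.2 ≠ 0 ∧
      p.1 + p.2 ≠ 2 ∧ p.2 - p.1 ∉ Fz)
    (hY : ∀ p ∈ Yz, -12 ≤ p.1 ∧ p.1 ≤ 12 ∧ -12 ≤ p.2 ∧ p.2 ≤ 12 ∧ p.1 ≠ 0 ∧ p.2 ≠ 0 ∧
      p.1 + p.2 ≠ 2 ∧ p.2 - p.1 ∈ Fz) :
    ∃ K : Finset (ZMod N × ZMod N),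
      (∀ q ∈ K, (q.1 ≠ 0 ∧ q.2 ≠ 0 ∧ q.1 + q.2 ≠ 2) ∧
        (((∀ f ∈ Fz, q.2 - q.1 ≠ (f : ℤ)) ∧ ∀ p ∈ Xz, q ≠ (((p.1 : ℤ) : ZMod N), ((p.2 : ℤ) : ZMod N))) ∨
          ∃ p ∈ Yz, q = (((p.1 : ℤ) : ZMod N), ((p.2 : ℤ) : ZMod N)))) ∧
      ∀ G : ZMod N × ZMod N → ℤ, ∑ q ∈ K, G q =
        ∑ x, ∑ y, G (x, y) - ∑ y, G (0, y) - ∑ x, G (x, 0) - ∑ x, G (x, 2 - x) +
        G (0, 0) + G (0, 2) + G (2, 0) -
        ∑ f ∈ Fz, (∑ x, G (x, x + (f : ℤ)) -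
          ∑ a ∈ ({0, -f, 1 - f / 2} : Finset ℤ), G ((a : ℤ), ((a + f : ℤ) : ZMod N))) -
        ∑ p ∈ Xz, G ((p.1 : ℤ), (p.2 : ℤ)) + ∑ p ∈ Yz, G ((p.1 : ℤ), (p.2 : ℤ)) := by
  classical
  have h2 : (2 : ZMod N) ≠ 0 := fun h => by
    have := cinj hN 2 0 (by omega) (by omega) (by simpa using h); omega
  let c : ℤ × ℤ → ZMod N × ZMod N := fun p => ((p.1 : ℤ), (p.2 : ℤ))
  let S := univ.filter (fun p : ZMod N × ZMod N => p.1 ≠ 0 ∧ p.2 ≠ 0 ∧ p.1 + p.2 ≠ 2)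
  let F : Finset (ZMod N) := Fz.image fun f => ((f : ℤ) : ZMod N)
  let D := S.filter fun p => p.2 - p.1 ∈ F
  have inS : ∀ p : ℤ × ℤ, -12 ≤ p.1 → p.1 ≤ 12 → -12 ≤ p.2 → p.2 ≤ 12 → p.1 ≠ 0 → p.2 ≠ 0 →
      p.1 + p.2 ≠ 2 → c p ∈ S := by
    intro p a1 a2 a3 a4 a5 a6 a7
    simp only [S, c, mem_filter, mem_univ, true_and]
    exact ⟨fun h => a5 (cinj hN _ _ (by omega) (by omega) (by simpa using h)),
      fun h => a6 (cinj hN _ _ (by omega) (by omega) (by simpa using h)),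
      fun h => a7 (cinj hN _ _ (by omega) (by omega) (by simpa using h))⟩
  have cI : ∀ Z : Finset (ℤ × ℤ), (∀ p ∈ Z, -12 ≤ p.1 ∧ p.1 ≤ 12 ∧ -12 ≤ p.2 ∧ p.2 ≤ 12) →
      Set.InjOn c Z := by
    intro Z hZ p hp q hq h
    have a := hZ p hp
    have b := hZ q hq
    exact Prod.ext (cinj hN _ _ (by omega) (by omega) (congrArg Prod.fst h))
      (cinj hN _ _ (by omega) (by omega) (congrArg Prod.snd h))
  have XS : Xz.image c ⊆ S := by
    intro q hq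
    obtain ⟨p, hp, rfl⟩ := mem_image.1 hq
    obtain ⟨a1, a2, a3, a4, a5, a6, a7, -⟩ := hX p hp
    exact inS p a1 a2 a3 a4 a5 a6 a7
  have XD : Disjoint D (Xz.image c) := by
    refine Finset.disjoint_right.2 fun q hq hD => ?_
    obtain ⟨p, hp, rfl⟩ := mem_image.1 hq
    obtain ⟨f, hf, e⟩ := mem_image.1 (mem_filter.1 hD).2
    have a := hX p hp
    have b := hF f hf
    have : f = p.2 - p.1 := cinj hN _ _ (by omega) (by omega) (by rw [e]; simp [c])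
    exact a.2.2.2.2.2.2.2 (this ▸ hf)
  have YD : Yz.image c ⊆ D := by
    intro q hq
    obtain ⟨p, hp, rfl⟩ := mem_image.1 hq
    obtain ⟨a1, a2, a3, a4, a5, a6, a7, a8⟩ := hY p hp
    exact mem_filter.2 ⟨inS p a1 a2 a3 a4 a5 a6 a7, mem_image.2 ⟨_, a8, by simp [c]⟩⟩
  refine ⟨(S \ (D ∪ Xz.image c)) ∪ Yz.image c, ?_, fun G => ?_⟩
  · intro q hq
    rcases mem_union.1 hq with h | h
    · obtain ⟨hS, hn⟩ := mem_sdiff.1 h
      rw [mem_union, not_or] at hn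
      refine ⟨(mem_filter.1 hS).2, Or.inl ⟨fun f hf e => hn.1 ?_, fun p hp e => hn.2 ?_⟩⟩
      · exact mem_filter.2 ⟨hS, mem_image.2 ⟨f, hf, e.symm⟩⟩
      · exact mem_image.2 ⟨p, hp, e.symm⟩
    · refine ⟨(mem_filter.1 (mem_filter.1 (YD h)).1).2, Or.inr ?_⟩
      obtain ⟨p, hp, rfl⟩ := mem_image.1 h
      exact ⟨p, hp, rfl⟩
  have dj : Disjoint (S \ (D ∪ Xz.image c)) (Yz.image c) :=
    Finset.disjoint_left.2 fun q h h' => (mem_sdiff.1 h).2 (mem_union_left _ (YD h'))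
  have sD : ∑ q ∈ D, G q = ∑ f ∈ Fz, (∑ x, G (x, x + (f : ℤ)) -
      ∑ a ∈ ({0, -f, 1 - f / 2} : Finset ℤ), G ((a : ℤ), ((a + f : ℤ) : ZMod N))) := by
    rw [← sum_fiberwise_of_maps_to (s := D) (t := F) (g := fun p => p.2 - p.1)
      (fun p hp => (mem_filter.1 hp).2), sum_image]
    · refine sum_congr rfl fun f hf => ?_
      have b := hF f hf
      have e1 : D.filter (fun p => p.2 - p.1 = ((f : ℤ) : ZMod N)) =
          S.filter (fun p => p.2 - p.1 = ((f : ℤ) : ZMod N)) := by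
        ext p
        simp only [D, mem_filter]
        exact ⟨fun h => ⟨h.1.1, h.2⟩, fun h => ⟨⟨h.1, mem_image.2 ⟨f, hf, h.2.symm⟩⟩, h.2⟩⟩
      have e2 : 2 * ((1 - f / 2 : ℤ) : ZMod N) + (f : ℤ) = 2 := by
        have : 2 * (1 - f / 2) + f = 2 := by omega
        exact_mod_cast congrArg (fun z : ℤ => (z : ZMod N)) this
      have e3 : ({0, -((f : ℤ) : ZMod N), ((1 - f / 2 : ℤ) : ZMod N)} : Finset (ZMod N)) =
          ({0, -f, 1 - f / 2} : Finset ℤ).image fun a => ((a : ℤ) : ZMod N) := by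
        simp only [image_insert, image_singleton, Int.cast_zero, Int.cast_neg]
      rw [e1, diag_sum hu _ _ e2, e3, sum_image]
      · simp only [Int.cast_add]
      · intro a ha a' ha' h
        simp only [coe_insert, coe_singleton, Set.mem_insert_iff, Set.mem_singleton_iff] at ha ha'
        exact cinj hN _ _ (by omega) (by omega) h
    · intro a ha a' ha' h
      have := hF a ha
      have := hF a' ha'
      exact cinj hN _ _ (by omega) (by omega) h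
  rw [sum_union dj, sum_sdiff_eq_sub (union_subset (filter_subset _ _) XS), sum_union XD, sD,
    base_sum h2, sum_image (cI Xz fun p hp => by have := hX p hp; omega),
    sum_image (cI Yz fun p hp => by have := hY p hp; omega)]
  ring

/-- the protoplex cut from `Z_N` -/
def Gad (N k : ℕ) [NeZero N] : Prop :=
  ∃ (K : Finset (ZMod N × ZMod N)) (x f : ZMod N), x = 2 * k ∧
    (∀ q ∈ K, q.1 ≠ 0 ∧ q.2 ≠ 0 ∧ q.2 - q.1 ≠ f ∧ (q ≠ (x, x) → q.1 + q.2 ≠ 2)) ∧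
    (∀ g : ZMod N → ℤ, ∑ q ∈ K, g q.1 = k * (∑ y, g y - g 0)) ∧
    (∀ g : ZMod N → ℤ, ∑ q ∈ K, g q.2 = k * (∑ y, g y - g 0)) ∧
    (∀ g : ZMod N → ℤ, ∑ q ∈ K, g (if q = (x, x) then x else q.1 + q.2) = k * (∑ y, g y - g 2)) ∧
    x ≠ 0 ∧ x ≠ 2 ∧ x + x ≠ 2 ∧ f ≠ 0 ∧ f ≠ x ∧ f ≠ -x ∧ f ≠ 2 ∧ (2 : ZMod N) ≠ 0

lemma gad {N k : ℕ} [NeZero N] (hN : 33 ≤ N) (hu : IsUnit (2 : ZMod N)) (Fz : Finset ℤ)
    (Xz Yz : Finset (ℤ × ℤ)) (x f0 : ℤ) (hF : ∀ f ∈ Fz, -8 ≤ f ∧ f ≤ 8 ∧ f % 2 = 0)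
    (hX : ∀ p ∈ Xz, -12 ≤ p.1 ∧ p.1 ≤ 12 ∧ -12 ≤ p.2 ∧ p.2 ≤ 12 ∧ p.1 ≠ 0 ∧ p.2 ≠ 0 ∧
      p.1 + p.2 ≠ 2 ∧ p.2 - p.1 ∉ Fz)
    (hY : ∀ p ∈ Yz, -12 ≤ p.1 ∧ p.1 ≤ 12 ∧ -12 ≤ p.2 ∧ p.2 ≤ 12 ∧ p.1 ≠ 0 ∧ p.2 ≠ 0 ∧
      p.1 + p.2 ≠ 2 ∧ p.2 - p.1 ∈ Fz)
    (hk : N = k + 2 + Fz.card) (hx : x = -2 * (Fz.card + 2)) (hx' : -12 ≤ x ∧ x < 0)
    (hf0 : f0 ∈ Fz ∧ 2 < f0 ∧ f0 ≠ -x) (hY' : ∀ p ∈ Yz, p.2 - p.1 ≠ f0 ∧ p ≠ (x, x))
    (hxx : 0 ∈ Fz ∨ (x, x) ∈ Xz)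
    (i1 : ∀ φ : ℤ → ℤ, φ 2 + ∑ f ∈ Fz, ∑ a ∈ ({0, -f, 1 - f / 2} : Finset ℤ), φ a +
      ∑ p ∈ Yz, φ p.1 + φ x = ∑ p ∈ Xz, φ p.1 + Fz.card * φ 0)
    (i2 : ∀ φ : ℤ → ℤ, φ 2 + ∑ f ∈ Fz, ∑ a ∈ ({0, -f, 1 - f / 2} : Finset ℤ), φ (a + f) +
      ∑ p ∈ Yz, φ p.2 + φ x = ∑ p ∈ Xz, φ p.2 + Fz.card * φ 0)
    (i3 : ∀ φ : ℤ → ℤ, φ 0 + ∑ f ∈ Fz, ∑ a ∈ ({0, -f, 1 - f / 2} : Finset ℤ), φ (a + (a + f)) +
      ∑ p ∈ Yz, φ (p.1 + p.2) + φ x = ∑ p ∈ Xz, φ (p.1 + p.2) + Fz.card * φ 2) :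
    Gad N k := by
  classical
  obtain ⟨K, mK, sK⟩ := gsum hN hu Fz Xz Yz hF hX hY
  have bf := hF f0 hf0.1
  have ne : ∀ a b : ℤ, a - b ≤ 32 → b - a ≤ 32 → a ≠ b → (a : ZMod N) ≠ b :=
    fun a b h1 h2 h3 h => h3 (cinj hN a b h1 h2 h)
  have nK : (((x : ℤ) : ZMod N), ((x : ℤ) : ZMod N)) ∉ K := by
    intro h
    rcases (mK _ h).2 with ⟨h1, h2⟩ | ⟨p, hp, e⟩
    · rcases hxx with h0 | h0
      · exact h1 0 h0 (by simp)
      · exact h2 _ h0 rfl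
    · have := hY p hp
      refine (hY' p hp).2 (Prod.ext ?_ ?_)
      · exact (cinj hN _ _ (by omega) (by omega) (congrArg Prod.fst e)).symm
      · exact (cinj hN _ _ (by omega) (by omega) (congrArg Prod.snd e)).symm
  have hNz : (N : ℤ) = k + 2 + Fz.card := by exact_mod_cast hk
  have x0 : ((x : ℤ) : ZMod N) ≠ 0 := by simpa using ne x 0 (by omega) (by omega) (by omega)
  have f0' : ((f0 : ℤ) : ZMod N) ≠ 0 := by simpa using ne f0 0 (by omega) (by omega) (by omega)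
  refine ⟨insert (((x : ℤ) : ZMod N), ((x : ℤ) : ZMod N)) K, (x : ℤ), (f0 : ℤ), ?_, ?_, ?_, ?_,
    ?_, x0, ?_, ?_, f0', ne _ _ (by omega) (by omega) (by omega), ?_, ?_, ?_⟩
  · have : x = 2 * k - 2 * N := by omega
    rw [this]; simp
  · intro q hq
    rcases mem_insert.1 hq with rfl | h
    · exact ⟨x0, x0, by simpa using f0'.symm, fun h => absurd rfl h⟩
    · obtain ⟨⟨a1, a2, a3⟩, h'⟩ := mK q h
      refine ⟨a1, a2, ?_, fun _ => a3⟩
      rcases h' with ⟨h1, -⟩ | ⟨p, hp, rfl⟩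
      · exact h1 f0 hf0.1
      · have := hY p hp
        simpa using ne (p.2 - p.1) f0 (by omega) (by omega) (hY' p hp).1
  · intro g
    have := i1 fun a => g (a : ℤ)
    rw [sum_insert nK, sK fun q => g q.1]
    simp only [sum_const, card_univ, ZMod.card, nsmul_eq_mul, ← mul_sum, sum_sub_distrib,
      Int.cast_zero, Int.cast_ofNat] at this ⊢
    rw [hNz]; linear_combination this
  · intro g
    have := i2 fun a => g (a : ℤ)
    have h1 : ∑ y, g (2 - y) = ∑ y, g y := Equiv.sum_comp (Equiv.subLeft 2) g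
    have h2 : ∀ c, ∑ y, g (y + c) = ∑ y, g y := fun c => Equiv.sum_comp (Equiv.addRight c) g
    rw [sum_insert nK, sK fun q => g q.2]
    simp only [h1, h2, sum_const, card_univ, ZMod.card, nsmul_eq_mul, sum_sub_distrib,
      Int.cast_zero, Int.cast_ofNat] at this ⊢
    rw [hNz]; linear_combination this
  · intro g
    have := i3 fun a => g (a : ℤ)
    have h1 : ∀ c, ∑ y, g (c + y) = ∑ y, g y := fun c => Equiv.sum_comp (Equiv.addLeft c) g
    have h2 : ∀ c, ∑ y, g (y + (y + c)) = ∑ y, g y := fun c =>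
      (Finite.injective_iff_bijective.1 (fun b b' h => hu.mul_left_cancel
        (by linear_combination (h : b + (b + c) = b' + (b' + c)))) :
        Bijective fun b : ZMod N => b + (b + c)).sum_comp g
    rw [sum_insert nK, if_pos rfl, sum_congr rfl (g := fun q => g (q.1 + q.2))
      (fun q hq => by rw [if_neg (by rintro rfl; exact nK hq)]), sK fun q => g (q.1 + q.2)]
    simp only [h1, h2, add_zero, zero_add, add_sub_cancel, sum_const, card_univ, ZMod.card,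
      nsmul_eq_mul, sum_sub_distrib, Int.cast_zero, Int.cast_ofNat, Int.cast_add] at this ⊢
    rw [hNz]; linear_combination this
  · simpa using ne x 2 (by omega) (by omega) (by omega)
  · simpa using ne (x + x) 2 (by omega) (by omega) (by omega)
  · simpa using ne f0 (-x) (by omega) (by omega) hf0.2.2
  · simpa using ne f0 2 (by omega) (by omega) (by omega)
  · simpa using ne 2 0 (by omega) (by omega) (by omega)

lemma gad2 {N k : ℕ} [NeZero N] (hN : 33 ≤ N) (hu : IsUnit (2 : ZMod N)) (hk : N = k + 4) :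
    Gad N k := by
  refine gad hN hu {4, 6} {(-8, -8), (-11, 3), (-6, 2), (-4, 4), (-2, 6), (-1, -5), (2, 4)}
    {(-11, -5)} (-8) 4 (by decide) (by decide) (by decide) (by simp; omega) (by decide)
    (by decide) (by decide) (by decide) (by decide) ?_ ?_ ?_ <;>
  · intro φ; simp [Finset.sum_insert]; ring

lemma gad3 {N k : ℕ} [NeZero N] (hN : 33 ≤ N) (hu : IsUnit (2 : ZMod N)) (hk : N = k + 5) :
    Gad N k := by
  refine gad hN hu {-4, 0, 6} {(-10, 6), (-6, -4), (-2, 2), (1, -1), (2, 4), (3, 1), (4, -10)}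
    ∅ (-10) 6 (by decide) (by decide) (by decide) (by simp; omega) (by decide)
    (by decide) (by decide) (by decide) (by decide) ?_ ?_ ?_ <;>
  · intro φ; simp [Finset.sum_insert]; ring

lemma wsum {N k : ℕ} [NeZero N] (c : ZMod N → ℕ) (x z : ZMod N)
    (h : ∀ y, c y + (if y = x then 1 else 0) = if y = z then 0 else k) (g : ZMod N → ℤ) :
    g x + ∑ y, (c y : ℤ) * g y = k * (∑ y, g y - g z) := by
  have e : ∀ y, (c y : ℤ) * g y =
      k * g y - (if y = z then k * g y else 0) - if y = x then g y else 0 := by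
    intro y
    have := congrArg (fun a : ℕ => (a : ℤ) * g y) (h y)
    simp only [Nat.cast_add] at this
    split_ifs at this ⊢ <;> simp only [Nat.cast_one, Nat.cast_zero] at this <;>
      linear_combination this
  simp only [e, sum_sub_distrib, sum_ite_eq', mem_univ, if_true, ← mul_sum]; ring

/-- small orders, checked by counting -/
lemma gadDec (N k : ℕ) [NeZero N] (F : List (ZMod N)) (X Y : List (ZMod N × ZMod N))
    (x f : ZMod N)
    (h : let P : ZMod N → ZMod N → Prop := fun a b =>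
        a ≠ 0 ∧ b ≠ 0 ∧ a + b ≠ 2 ∧ ((b - a ∉ F ∧ (a, b) ∉ X) ∨ (a, b) ∈ Y)
      x = 2 * k ∧ f ∈ F ∧ (∀ q ∈ Y, q.2 - q.1 ≠ f) ∧ ¬ P x x ∧
      (∀ y, (univ.filter fun b => P y b).card + (if y = x then 1 else 0) = if y = 0 then 0 else k) ∧
      (∀ y, (univ.filter fun a => P a y).card + (if y = x then 1 else 0) = if y = 0 then 0 else k) ∧
      (∀ y, (univ.filter fun a => P a (y - a)).card + (if y = x then 1 else 0) =
        if y = 2 then 0 else k) ∧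
      x ≠ 0 ∧ x ≠ 2 ∧ x + x ≠ 2 ∧ f ≠ 0 ∧ f ≠ x ∧ f ≠ -x ∧ f ≠ 2 ∧ (2 : ZMod N) ≠ 0) :
    Gad N k := by
  extract_lets P at h
  obtain ⟨h1, h2, h3, h4, c1, c2, c3, x0, h5, h6, f0, h7⟩ := h
  have nK : (x, x) ∉ univ.filter fun q : ZMod N × ZMod N => P q.1 q.2 :=
    fun h => h4 (mem_filter.1 h).2
  refine ⟨insert (x, x) (univ.filter fun q : ZMod N × ZMod N => P q.1 q.2), x, f, h1, ?_, ?_, ?_,
    ?_, x0, h5, h6, f0, h7⟩
  · intro q hq
    rcases mem_insert.1 hq with rfl | h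
    · exact ⟨x0, x0, by simpa using f0.symm, fun h => absurd rfl h⟩
    · obtain ⟨a1, a2, a3, a4⟩ := (mem_filter.1 h).2
      refine ⟨a1, a2, ?_, fun _ => a3⟩
      rcases a4 with ⟨a4, -⟩ | a4
      · rintro e; exact a4 (e ▸ h2)
      · exact h3 _ a4
  · intro g
    rw [sum_insert nK, ← wsum _ x 0 c1 g, sum_filter, Fintype.sum_prod_type]
    simp only [← sum_filter, sum_const, nsmul_eq_mul]
  · intro g
    rw [sum_insert nK, ← wsum _ x 0 c2 g, sum_filter, Fintype.sum_prod_type_right]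
    simp only [← sum_filter, sum_const, nsmul_eq_mul]
  · intro g
    rw [sum_insert nK, if_pos rfl, sum_congr rfl (g := fun q => g (q.1 + q.2))
      (fun q hq => by rw [if_neg (by rintro rfl; exact nK hq)]), ← wsum _ x 2 c3 g, sum_filter,
      Fintype.sum_prod_type]
    have : ∀ a, ∑ b, (if P a b then g (a + b) else 0) = ∑ y, if P a (y - a) then g y else 0 := by
      intro a
      rw [← Equiv.sum_comp (Equiv.subRight a)]
      simp
    simp only [this]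
    rw [sum_comm]
    simp only [← sum_filter, sum_const, nsmul_eq_mul]

lemma g7 : Gad 11 7 := gadDec 11 7 [1] [(3, 3), (1, 7), (2, 7), (2, 10), (3, 8), (4, 1), (5, 2),
  (6, 6), (6, 9), (7, 3), (8, 2), (9, 5), (10, 1), (10, 4)] [] 3 1 (by decide +kernel)
lemma g8 : Gad 13 8 := gadDec 13 8
  [-4, 0, 6] [(-10, 6), (-6, -4), (-2, 2), (1, -1), (2, 4), (3, 1), (4, -10)] [] (-10) 6
  (by decide +kernel)
lemma g9 : Gad 13 9 := gadDec 13 9
  [4, 6] [(-8, -8), (-11, 3), (-6, 2), (-4, 4), (-2, 6), (-1, -5), (2, 4)] [(-11, -5)] (-8) 4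
  (by decide +kernel)
lemma g10 : Gad 15 10 := gadDec 15 10
  [-4, 0, 6] [(-10, 6), (-6, -4), (-2, 2), (1, -1), (2, 4), (3, 1), (4, -10)] [] (-10) 6
  (by decide +kernel)
lemma g11 : Gad 15 11 := gadDec 15 11
  [4, 6] [(-8, -8), (-11, 3), (-6, 2), (-4, 4), (-2, 6), (-1, -5), (2, 4)] [(-11, -5)] (-8) 4
  (by decide +kernel)
lemma g12 : Gad 17 12 := gadDec 17 12
  [-4, 0, 6] [(-10, 6), (-6, -4), (-2, 2), (1, -1), (2, 4), (3, 1), (4, -10)] [] (-10) 6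
  (by decide +kernel)
lemma g13 : Gad 17 13 := gadDec 17 13
  [4, 6] [(-8, -8), (-11, 3), (-6, 2), (-4, 4), (-2, 6), (-1, -5), (2, 4)] [(-11, -5)] (-8) 4
  (by decide +kernel)
lemma g14 : Gad 19 14 := gadDec 19 14
  [-4, 0, 6] [(-10, 6), (-6, -4), (-2, 2), (1, -1), (2, 4), (3, 1), (4, -10)] [] (-10) 6
  (by decide +kernel)
lemma g15 : Gad 19 15 := gadDec 19 15
  [4, 6] [(-8, -8), (-11, 3), (-6, 2), (-4, 4), (-2, 6), (-1, -5), (2, 4)] [(-11, -5)] (-8) 4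
  (by decide +kernel)
lemma g16 : Gad 21 16 := gadDec 21 16
  [-4, 0, 6] [(-10, 6), (-6, -4), (-2, 2), (1, -1), (2, 4), (3, 1), (4, -10)] [] (-10) 6
  (by decide +kernel)
lemma g17 : Gad 21 17 := gadDec 21 17
  [4, 6] [(-8, -8), (-11, 3), (-6, 2), (-4, 4), (-2, 6), (-1, -5), (2, 4)] [(-11, -5)] (-8) 4
  (by decide +kernel)
lemma g18 : Gad 23 18 := gadDec 23 18
  [-4, 0, 6] [(-10, 6), (-6, -4), (-2, 2), (1, -1), (2, 4), (3, 1), (4, -10)] [] (-10) 6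
  (by decide +kernel)
lemma g19 : Gad 23 19 := gadDec 23 19
  [4, 6] [(-8, -8), (-11, 3), (-6, 2), (-4, 4), (-2, 6), (-1, -5), (2, 4)] [(-11, -5)] (-8) 4
  (by decide +kernel)
lemma g20 : Gad 25 20 := gadDec 25 20
  [-4, 0, 6] [(-10, 6), (-6, -4), (-2, 2), (1, -1), (2, 4), (3, 1), (4, -10)] [] (-10) 6
  (by decide +kernel)
lemma g21 : Gad 25 21 := gadDec 25 21
  [4, 6] [(-8, -8), (-11, 3), (-6, 2), (-4, 4), (-2, 6), (-1, -5), (2, 4)] [(-11, -5)] (-8) 4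
  (by decide +kernel)
lemma g22 : Gad 27 22 := gadDec 27 22
  [-4, 0, 6] [(-10, 6), (-6, -4), (-2, 2), (1, -1), (2, 4), (3, 1), (4, -10)] [] (-10) 6
  (by decide +kernel)
lemma g23 : Gad 27 23 := gadDec 27 23
  [4, 6] [(-8, -8), (-11, 3), (-6, 2), (-4, 4), (-2, 6), (-1, -5), (2, 4)] [(-11, -5)] (-8) 4
  (by decide +kernel)
lemma g24 : Gad 29 24 := gadDec 29 24
  [-4, 0, 6] [(-10, 6), (-6, -4), (-2, 2), (1, -1), (2, 4), (3, 1), (4, -10)] [] (-10) 6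
  (by decide +kernel)
lemma g25 : Gad 29 25 := gadDec 29 25
  [4, 6] [(-8, -8), (-11, 3), (-6, 2), (-4, 4), (-2, 6), (-1, -5), (2, 4)] [(-11, -5)] (-8) 4
  (by decide +kernel)
lemma g26 : Gad 31 26 := gadDec 31 26
  [-4, 0, 6] [(-10, 6), (-6, -4), (-2, 2), (1, -1), (2, 4), (3, 1), (4, -10)] [] (-10) 6
  (by decide +kernel)
lemma g27 : Gad 31 27 := gadDec 31 27
  [4, 6] [(-8, -8), (-11, 3), (-6, 2), (-4, 4), (-2, 6), (-1, -5), (2, 4)] [(-11, -5)] (-8) 4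
  (by decide +kernel)

lemma gadAll {N k : ℕ} [NeZero N] (hk : 7 ≤ k) (hN : N % 2 = 1) (h : N = k + 4 ∨ N = k + 5) :
    Gad N k := by
  by_cases h33 : 33 ≤ N
  · have hu : IsUnit (2 : ZMod N) := by
      have := (ZMod.isUnit_iff_coprime 2 N).2 (Nat.coprime_two_left.2 (Nat.odd_iff.2 hN))
      simpa using this
    rcases h with h | h
    · exact gad2 h33 hu h
    · exact gad3 h33 hu h
  · have h27 : k ≤ 27 := by omega
    interval_cases k <;> rcases h with rfl | rfl <;>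
      first | (exfalso; omega) | exact g7 | exact g8 | exact g9 | exact g10 | exact g11
            | exact g12 | exact g13 | exact g14 | exact g15 | exact g16 | exact g17 | exact g18
            | exact g19 | exact g20 | exact g21 | exact g22 | exact g23 | exact g24 | exact g25
            | exact g26 | exact g27

end Pool.Agent.FS.H31P
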