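import Mathlib
import Pool.Agent.Lib.MP_3d3eb4_co.Defs
import Pool.Agent.FS.H31P.B
import Pool.Agent.FS.H31P.C

namespace Pool.Agent.FS.H31P
open Finset Function Sum
open Pool.Agent.Lib.MP_3d3eb4_co

theorem glue {n M N k u : ℕ} [NeZero M] [NeZero N] (hM : Odd M) (hN : Odd N) (hu1 : u ≤ 1)
    (hk : 2 ≤ k) (h8 : 8 ≤ M) (hkN : k < N) (hMN : N + u + k ≤ M) (hn : n = M + (N + u))
    (G : Gad N k) :
    ∃ L : Fin n → Fin n → Fin n, IsLatinSquare L ∧
      ∃ P : Finset (Fin n × Fin n), IsIndivisiblePlex L k P := by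
  classical
  obtain ⟨K, x, f, hx, mK, k1, k2, k3, x0, x2, xx, f0, fx, fx', f2, h20⟩ := G
  have hu : IsUnit (2 : ZMod N) := by
    have := (ZMod.isUnit_iff_coprime 2 N).2 (Nat.coprime_two_left.2 hN)
    simpa using this
  have : Subsingleton (Fin u) := ⟨fun a b => Fin.ext (by omega)⟩
  obtain ⟨I, hI, e1, -⟩ := prolong (T := Fin u) hu (fun a _ => a)
    ⟨fun _ _ _ _ => Subsingleton.elim _ _, fun _ _ _ _ => Subsingleton.elim _ _⟩ (fun _ => f)
    (fun _ _ _ => Subsingleton.elim _ _) id bijective_id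
  let c : ZMod N × ZMod N → (ZMod N ⊕ Fin u) × (ZMod N ⊕ Fin u) := fun q => (inl q.1, inl q.2)
  have hc : Injective c := fun q q' h =>
    Prod.ext (inl.inj (congrArg Prod.fst h)) (inl.inj (congrArg Prod.snd h))
  have vI : ∀ q ∈ K, (if c q = (inl x, inl x) then inl x else I (c q).1 (c q).2) =
      inl (if q = (x, x) then x else q.1 + q.2) := by
    intro q hq
    by_cases h : q = (x, x)
    · subst h; simp [c]
    · rw [if_neg h, if_neg fun h' => h (hc h')]
      exact e1 _ _ fun _ => (mK q hq).2.2.1.symm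
  have Ixx : I (inl x) (inl x) = inl (x + x) := e1 _ _ fun _ => by simpa using f0
  obtain ⟨L, hL, P, p1, p2, p3, hq, mP⟩ := outer (J := Option (Fin u)) (M := M) (k := k) hM hk h8
    (by simpa using hMN) (by omega) I hI (fun j => j.elim (inl 0) inr)
    (fun j => j.elim (inl 2) inr) (fun j => j.elim (inl 2) fun _ => inl f)
    (by rintro (_ | i) (_ | j) h <;> simp_all)
    (by rintro (_ | i) (_ | j) h <;> simp_all)
    (by
      rintro (_ | i) (_ | j) h
      · rfl
      · exact absurd (inl.inj h).symm f2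
      · exact absurd (inl.inj h) f2
      · rw [Subsingleton.elim i j])
    (by rintro (_ | i) (_ | j) <;> simp [h20.symm, f0.symm])
    (fun j => j.elim 0 fun _ => 1)
    (by
      rintro (_ | i) (_ | j) h
      · rfl
      · simp at h
      · simp at h
      · rw [Subsingleton.elim i j])
    (inl x) none (inl x)
    (by rintro (_ | i) <;> simp [x0.symm])
    (by rintro (_ | i) <;> simp [x2.symm, fx])
    (by simpa using e1 x 0 fun _ => by simpa using fx')
    (by simpa using e1 0 x fun _ => by simpa using fx)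
    (by rintro (_ | i) <;> simp [Ixx, xx.symm])
    (by rintro (_ | i) <;> simp [x2.symm])
    (K.image c)
    (by
      intro q0 hq0
      obtain ⟨q, hq, rfl⟩ := mem_image.1 hq0
      have := mK q hq
      simp [c, this.1, this.2.1])
    (by
      intro g
      rw [sum_image hc.injOn, Fintype.sum_sum_type, Fintype.sum_option]
      have := k1 fun y => g (inl y)
      simp only [c, Option.elim_none, Option.elim_some, this]; ring)
    (by
      intro g
      rw [sum_image hc.injOn, Fintype.sum_sum_type, Fintype.sum_option]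
      have := k2 fun y => g (inl y)
      simp only [c, Option.elim_none, Option.elim_some, this]; ring)
    (by
      intro g
      rw [sum_image hc.injOn, Fintype.sum_sum_type, Fintype.sum_option,
        sum_congr rfl fun q hq => congrArg g (vI q hq)]
      have := k3 fun y => g (inl y)
      simp only [Option.elim_none, Option.elim_some, this]; ring)
  let a : ZMod M ⊕ ZMod N ⊕ Fin u → ZMod N := Sum.elim (fun _ => 0) (Sum.elim id fun _ => 0)
  let b : ZMod M ⊕ ZMod N ⊕ Fin u → ZMod N :=
    Sum.elim (fun _ => 0) (Sum.elim (fun s => if s = 2 then 0 else s) fun _ => 0)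
  have hS : ∑ s : ZMod N, s = 0 := by
    have : ∑ s : ZMod N, -s = ∑ s : ZMod N, s := Equiv.sum_comp (Equiv.neg (ZMod N)) id
    rw [sum_neg_distrib] at this
    exact hu.mul_left_cancel (by linear_combination -this)
  have hS' : ∑ s : ZMod N, (if s = 2 then 0 else s) = -2 := by
    have : ∀ s : ZMod N, (if s = 2 then 0 else s) = s - if s = 2 then s else 0 := by
      intro s; split_ifs <;> simp
    simp only [this, sum_sub_distrib, hS, sum_ite_eq', mem_univ, if_true, zero_sub]
  refine transfer (by simp [hn]) L hL P p1 p2 p3 a b (inr (inl x), inr (inl x)) hkN hN ?_ ?_ ?_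
  · simp [a, b, Fintype.sum_sum_type, hS, hS']
  · intro p hp hne
    rcases mP p hp with ⟨q0, hq0, rfl, h⟩ | ⟨h1, h2, h3⟩
    · obtain ⟨q, hq, rfl⟩ := mem_image.1 hq0
      have h' : q ≠ (x, x) := by rintro rfl; exact hne rfl
      rw [h, vI q hq, if_neg h']
      simp [a, b, c, (mK q hq).2.2.2 h']
    · have ha : ∀ v, Out (fun j : Option (Fin u) => j.elim (inl 0) inr) v → a v = 0 := by
        rintro v (⟨_, rfl⟩ | ⟨_ | _, rfl⟩) <;> simp [a]
      have hb : ∀ v, Out (fun j : Option (Fin u) => j.elim (inl 2) inr) v → b v = 0 := by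
        rintro v (⟨_, rfl⟩ | ⟨_ | _, rfl⟩) <;> simp [b]
      rw [ha _ h1, ha _ h2, hb _ h3]; simp
  · simp only [hq]
    simp [a, b, x2, ← hx]

theorem main (k n : ℕ) (hk : 7 ≤ k) (hn : 3 * k + 12 ≤ n) :
    ∃ (L : Fin n → Fin n → Fin n) (P : Finset (Fin n × Fin n)),
      IsLatinSquare L ∧ IsIndivisiblePlex L k P := by
  obtain ⟨N, hN, hNk⟩ : ∃ N, N % 2 = 1 ∧ (N = k + 4 ∨ N = k + 5) := by
    rcases Nat.mod_two_eq_zero_or_one k with h | h
    · exact ⟨k + 5, by omega, Or.inr rfl⟩
    · exact ⟨k + 4, by omega, Or.inl rfl⟩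
  have : NeZero N := ⟨by omega⟩
  have G : Gad N k := gadAll hk hN hNk
  have : NeZero (n - N - n % 2) := ⟨by omega⟩
  obtain ⟨L, hL, P, hP⟩ := glue (n := n) (M := n - N - n % 2) (u := n % 2)
    (Nat.odd_iff.2 (by omega)) (Nat.odd_iff.2 hN) (by omega) (by omega) (by omega) (by omega)
    (by omega) (by omega) G
  exact ⟨L, P, hL, hP⟩

end Pool.Agent.FS.H31P
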